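import Pool.Agent.K9h97.MTP.FewMT

/-!
The `k`-th power of the augmentation ideal of the integral group ring of a finite abelian `p`-group is
detected by the homomorphisms to the cyclic `p`-groups, for all finite abelian `p`-groups, if and only
if `k ≤ p + 2`; it is detected by the homomorphisms to the products of at most `m` cyclic `p`-groups if
`k ≤ p + m`. Accordingly the order of vanishing statement for the Mazur-Tate elements (powers
`k ≤ p + 2`) and their leading term formula (ranks `r ≤ p + 1`) for all real abelian fields of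
`p`-power degree follow from those for the cyclic fields, and for all `k` and all ranks `r` they follow
from those for the fields whose Galois groups have at most `max (1, k - p)` generators (`k = r + 1` for
the leading term formula).
-/

set_option autoImplicit false

namespace Pool.Agent.Results.MP_5deabe_nt.CyclicFieldsLargerRange

open Finset Pool.Agent.X252.MT Pool.Agent.K9h97.MTP

theorem result (p : ℕ) (hp : p.Prime) :
    (∀ k, Detected p k ↔ k ≤ p + 2) ∧
    (∀ m k, 1 ≤ m → k ≤ p + m → DetectedFew p m k) ∧
    ∀ (W : WeierstrassCurve ℤ) (Ω : ℂ), Ω ≠ 0 →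
      ∀ (θ : (F : Fld W p) → MonoidAlgebra (Zp p hp) (Du F.X)), (∀ F, IsTheta F Ω (θ F)) →
      ((∀ k ≤ p + 2, CyclicSuffice (fun F : Fld W p => InPow k (θ F)) k) ∧
      ∀ (r : ℕ) (h : (F : Fld W p) → Fin r → Fin r → Du F.X), r ≤ p + 1 → Compat W p h →
        ∀ c : Zp p hp, CyclicSuffice (fun F : Fld W p => LT hp F (h F) c (θ F)) (r + 1)) ∧
      ∀ m, 1 ≤ m → (∀ k ≤ p + m, FewSuffice (fun F : Fld W p => InPow k (θ F)) k m) ∧
        ∀ (r : ℕ) (h : (F : Fld W p) → Fin r → Fin r → Du F.X), r + 1 ≤ p + m → Compat W p h →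
          ∀ c : Zp p hp, FewSuffice (fun F : Fld W p => LT hp F (h F) c (θ F)) (r + 1) m :=
  ⟨detected_iff hp, fun _ _ hm hk => detectedFew hp hm hk, fun _ _ hΩ _ hθ =>
    ⟨reduction2 hp hΩ hθ, fun m hm => reduction_few hp hΩ hθ m hm⟩⟩

end Pool.Agent.Results.MP_5deabe_nt.CyclicFieldsLargerRange
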