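import Pool.Agent.K9h35.MZ.Equiv

/-!
# The leading term formula of Mazur and Tate for fields of exponent `p` as congruences for `L`-values

`W` is a Weierstrass equation over `ℤ` of an elliptic curve `E`, `p` a prime, `Ω ≠ 0`. `Fld W p`
(`Pool.Agent.X252.MT`) are the abelian fields `F` of `p`-power degree with squarefree conductor `m_F`,
with good reduction and `p ∤ #E(𝔽_q)` at the primes `q ∣ m_F`; `F` is given by its group of characters
`F.X` and the set `F.T` of the primes `q ∣ m_F`. `θ F` is the Mazur-Tate element: an element of the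
group ring of the Galois group `G` over the rational numbers with denominators prime to `p`, with the
values `χ (θ F) = τ_m(χ) L_S(E, χ⁻¹, 1) / Ω` (`IsTheta`), where `S` consists of the bad primes and of
the primes dividing `m_F`. `I` is the augmentation ideal of the group ring.

For a character `χ` of conductor `m` let `φ_q(χ)`, `q ∣ m`, be the value at `q` of the product of the
components of `χ` at the other primes dividing `m`, and
`B(χ) = m τ_m(χ) L_S(E, χ⁻¹, 1) / (Ω ∏ (a_q - q φ_q(χ) - φ_q(χ)⁻¹))`, the product over `q ∣ m` (the
factors are not zero). This does not depend on a field.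

Theorem: let `r ≥ 0`, let `h_F`, `F` in `Fld W p`, be `r × r` matrices over the Galois groups, compatible
under restriction, and `c` a rational number with denominator prime to `p`. The leading term formula
`m_F θ_F ≡ (-1)^ν(m) c ∏ #E(𝔽_q) det (h_F - 1)` modulo `I ^ (r + 1)` (so in particular `θ_F ∈ I ^ r`) holds
for ALL fields `F` of exponent `p` in `Fld W p` if and only if it holds for `F = ℚ`, that is `B(1) = c` if
`r = 0` and `B(1) = 0` if `r > 0`, and `B(χ) ≡ c det (χ (h_ij) - 1)` modulo `(ζ - 1) ^ (r + 1)` in
`Z_(p)[ζ]`, `ζ = exp (2πi / p)`, for the characters `χ` of order `p` with AT MOST `r` ramified primes.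

Proof. For `q ∣ m_F` let `φ_q ∈ G` be the Frobenius of `q` which is trivial on the part ramified at `q`,
and `N_F = ∏ (a_q - q φ_q - φ_q⁻¹)`. This is a unit of the group ring, because its augmentation is one:
an element of the group ring of a finite `p`-group over a local ring whose residue characteristic is
`p` is a unit if its augmentation is a unit. By the restriction relation the elements
`w_F = m_F θ_F / N_F` are exactly compatible under restriction, so that all Mazur-Tate elements are explicit
units times the images of one element of the inverse limit of the group rings, and `B(χ) = χ(w_F)`. The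
formula is equivalent to `w_F ≡ c det (h_F - 1)` modulo `I ^ (r + 1)`: the Euler factors disappear. It
suffices to have it for cyclic fields of order `p` with at most `r` ramified primes (the starting result
`ReductionToCyclicFields`), and for these fields the powers of `I` are detected by the divisibility of the
values. (Also, modulo `(ζ - 1) ^ (r + 1)` all values `B(χ)` are explicit combinations of those with at most
`r` ramified primes, see `Pool.Agent.K9h35.Full.UniversalElement`.)
-/

set_option autoImplicit false

namespace Pool.Agent.Results.MP_5deabe_nt.LeadingTermCongruences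

open Pool.Agent.X252.MT Pool.Agent.K9h35.MZ

variable {W : WeierstrassCurve ℤ} {p : ℕ}

/-- `x = (ζ - 1) ^ k * y` with `y` in the ring generated by the rational numbers with denominators prime
to `p` and `ζ = exp (2πi / p)` -/
def Divisible (hp : p.Prime) (k : ℕ) (x : ℂ) : Prop :=
  ∃ y ∈ Subring.closure ((Zp p hp : Set ℂ) ∪ {Complex.exp (2 * Real.pi * Complex.I / (p : ℕ))}),
    x = (Complex.exp (2 * Real.pi * Complex.I / (p : ℕ)) - 1) ^ k * y

/-- the exponent of the group `F.X` (of the Galois group of `F`) divides `e` -/
def HasExp (F : Fld W p) (e : ℕ) : Prop := ∀ c ∈ F.X, c ^ e = 1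

/-- `B` gives the normalised values of the `L`-functions of all characters -/
def AreValues (W : WeierstrassCurve ℤ) (p : ℕ) (Ω : ℂ) (B : Fam → ℂ) : Prop :=
  ∀ (F : Fld W p) (χ : F.X) (b : ℂ), IsNormalised W Ω χ b ↔ b = B χ

/-- the leading term formula holds for all fields of exponent `p` -/
def Formula (hp : p.Prime) (θ : (F : Fld W p) → MonoidAlgebra (Zp p hp) (Du F.X)) {r : ℕ}
    (h : (F : Fld W p) → Fin r → Fin r → Du F.X) (c : Zp p hp) : Prop :=
  ∀ F : Fld W p, HasExp F p → LT hp F (h F) c (θ F)

/-- `B(χ) ≡ c det (χ (h_ij) - 1)` modulo `(ζ - 1) ^ (r + 1)` for the characters of order `p` with at most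
`r` ramified primes, with equality for `χ = 1` -/
def Congruences (hp : p.Prime) (B : Fam → ℂ) {r : ℕ}
    (h : (F : Fld W p) → Fin r → Fin r → Du F.X) (c : Zp p hp) : Prop :=
  B 1 = (if r = 0 then (c : ℂ) else 0) ∧
    ∀ F : Fld W p, HasExp F p → F.T.card ≤ r → ∀ χ : F.X,
      Divisible hp (r + 1) (B χ - c * Matrix.det (Matrix.of fun i j => (h F i j χ : ℂ) - 1))

theorem result (W : WeierstrassCurve ℤ) (p : ℕ) (hp : p.Prime) (Ω : ℂ) (hΩ : Ω ≠ 0)
    (θ : (F : Fld W p) → MonoidAlgebra (Zp p hp) (Du F.X)) (hθ : ∀ F, IsTheta F Ω (θ F)) :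
    ∃ B : Fam → ℂ, AreValues W p Ω B ∧
      ∀ (r : ℕ) (h : (F : Fld W p) → Fin r → Fin r → Du F.X), Compat W p h → ∀ c : Zp p hp,
        (Formula hp θ h c ↔ Congruences hp B h c) := by
  refine ⟨BB hp θ, fun F χ b => ?_, fun r h hh c => ?_⟩
  · rw [norm_iff hp hΩ hθ, BB_eq hp hΩ hθ]
  · have h1 := lead_iff hp hΩ hθ r h hh c
    have h2 : ∀ (k : ℕ) (x : ℂ), x ∈ PP (Oz hp 1) (zeta p 1 - 1) k ↔ Divisible hp k x := by
      intro k x
      have h3 : zeta p 1 = Complex.exp (2 * Real.pi * Complex.I / (p : ℕ)) := by
        unfold zeta
        rw [pow_one]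
      rw [mem_PP]
      unfold Divisible Oz
      rw [h3]
    simp only [h2] at h1
    exact h1

end Pool.Agent.Results.MP_5deabe_nt.LeadingTermCongruences
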