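import Pool.Agent.K9h35.MZ.Main

/-!
# One nonzero twisted `L`-value gives a positive proportion of nonzero values

`W` is a Weierstrass equation over `ℤ` of an elliptic curve `E`, `p` a prime, `Ω ≠ 0`. `Fld W p`
(`Pool.Agent.X252.MT`) are the abelian fields `F` of `p`-power degree with squarefree conductor `m_F`,
with good reduction and `p ∤ #E(𝔽_q)` at the primes `q ∣ m_F`; `F` is given by its group of characters
`F.X` and the set `F.T` of the primes `q ∣ m_F`. `θ F` is the Mazur-Tate element: an element of the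
group ring of the Galois group `G` over the rational numbers with denominators prime to `p`, with the
values `χ (θ F) = τ_m(χ) L_S(E, χ⁻¹, 1) / Ω` (`IsTheta`), where `S` consists of the bad primes and of
the primes dividing `m_F`.

Theorem. Let `v = τ_m(c) L_S(E, c⁻¹, 1) ≠ 0` for ONE character `c` of a field of exponent dividing `p ^ n`.
Then `v / Ω` is not divisible by all powers of `ζ - 1` in `Z_(p)[ζ]`, `ζ = exp (2πi / p^n)`; if it is not
divisible by `(ζ - 1) ^ (k + 1)`, then for ALL fields `F` of exponent dividing `p ^ n` with the character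
`c` at least `2 ^ (-k) |F.X|` of the values `L(E, χ⁻¹, 1)`, `χ ∈ F.X`, are not zero, and at least
`(1 - k / p) |F.X|` of them if `k < p`. The bound does not depend on `F`. The value `L(E, 1)` may be
zero: the theorem applies to curves of any rank.

Proof. The differences of the function `χ ↦ χ(z)` on `F.X`, `z` in the group ring, are divisible by
`π = ζ - 1`, because `χ ψ (σ) - χ (σ) = χ (σ) (ψ (σ) - 1)`; so modulo `π ^ (k + 1)` this function is
polynomial of degree at most `k` in the sense of iterated differences. A polynomial map of degree `k`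
between abelian groups which is not zero is nonzero on a proportion at least `2 ^ (-k)`, and at least
`1 - k / p` if `k < p` and if the target has no torsion prime to `p` (a lemma of Schwartz and Zippel without
a field: for a direction `h` let `g` be the last nonzero iterated difference; on every progression with
difference `h` on which `g ≠ 0` at most `deg` of `p` consecutive values vanish, by the determinant of
Vandermonde; then use induction for `g`). The values of the elements of different fields at a character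
differ by the Euler factors `a_q - q χ(q) - χ(q)⁻¹ ≡ - #E(𝔽_q) mod π`, which are units.
-/

set_option autoImplicit false

namespace Pool.Agent.Results.MP_5deabe_nt.NonvanishingProportion

open Pool.Agent.X252.MT Pool.Agent.K9h35.MZ

/-- `x = (ζ - 1) ^ k * y` with `y` in the ring generated by the rational numbers with denominators prime
to `p` and `ζ = exp (2πi / p ^ n)` -/
def Divisible {p : ℕ} (hp : p.Prime) (n k : ℕ) (x : ℂ) : Prop :=
  ∃ y ∈ Subring.closure ((Zp p hp : Set ℂ) ∪ {Complex.exp (2 * Real.pi * Complex.I / (p ^ n : ℕ))}),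
    x = (Complex.exp (2 * Real.pi * Complex.I / (p ^ n : ℕ)) - 1) ^ k * y

/-- the number of the characters `χ` of `F` with `L(E, χ⁻¹, 1) ≠ 0` (the Euler factors at the primes of
bad reduction are omitted from `L`) -/
noncomputable def nonvanishing {W : WeierstrassCurve ℤ} {p : ℕ} (F : Fld W p) : ℕ :=
  Nat.card {χ : F.X // ∃ (T : Finset ℕ) (L : ℂ → ℂ), (∀ q, q ∈ T ↔ (χ : Fam) q ≠ 1) ∧
    IsL W T (χ⁻¹ : F.X) L ∧ L 1 ≠ 0}

/-- the exponent of the group `F.X` (of the Galois group of `F`) divides `e` -/
def HasExp {W : WeierstrassCurve ℤ} {p : ℕ} (F : Fld W p) (e : ℕ) : Prop :=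
  ∀ c ∈ F.X, c ^ e = 1

/-- `c` is a character of `F` and `v = τ_m(c) L_S(E, c⁻¹, 1)`, where `m` is the conductor of `F` -/
def IsValue {W : WeierstrassCurve ℤ} {p : ℕ} (F : Fld W p) (c : Fam) (v : ℂ) : Prop :=
  c ∈ F.X ∧ ∃ L : ℂ → ℂ, IsL W F.T c⁻¹ L ∧ v = tau F.T c * L 1

/-- For all fields `F` of exponent dividing `p ^ n` with the character `c` at least `2 ^ (-k) |F.X|`, and
at least `(1 - k / p) |F.X|` if `k < p`, of the values `L(E, χ⁻¹, 1)`, `χ ∈ F.X`, are not zero. -/
def Proportion (W : WeierstrassCurve ℤ) (p n k : ℕ) (c : Fam) : Prop :=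
  ∀ F : Fld W p, HasExp F (p ^ n) → c ∈ F.X → Nat.card F.X ≤ 2 ^ k * nonvanishing F ∧
    (k < p → (p - k) * Nat.card F.X ≤ p * nonvanishing F)

theorem result (W : WeierstrassCurve ℤ) (p : ℕ) (hp : p.Prime) (Ω : ℂ) (hΩ : Ω ≠ 0)
    (θ : (F : Fld W p) → MonoidAlgebra (Zp p hp) (Du F.X)) (hθ : ∀ F, IsTheta F Ω (θ F))
    (n : ℕ) (F₀ : Fld W p) (hF₀ : HasExp F₀ (p ^ n)) (c : Fam) (v : ℂ) (hc : IsValue F₀ c v)
    (hv : v ≠ 0) :
    (∃ k, ¬ Divisible hp n (k + 1) (v / Ω)) ∧
      ∀ k, ¬ Divisible hp n (k + 1) (v / Ω) → Proportion W p n k c := by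
  obtain ⟨hc, L, hL, rfl⟩ := hc
  refine ⟨value_val hp hΩ hθ F₀ hF₀ ⟨c, hc⟩ L hL hv, fun k h F hF hχ => ?_⟩
  exact one_value hp hΩ hθ F₀ ⟨c, hc⟩ L hL h F hF hχ

end Pool.Agent.Results.MP_5deabe_nt.NonvanishingProportion
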