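import Pool.Agent.K9h35.MZ.Main

/-!
# Vanishing twisted `L`-values and the order of vanishing of the Mazur-Tate elements

`W` is a Weierstrass equation over `ℤ` of an elliptic curve `E`, `p` a prime, `Ω ≠ 0`. `Fld W p`
(`Pool.Agent.X252.MT`) are the abelian fields `F` of `p`-power degree with squarefree conductor `m_F`,
with good reduction and `p ∤ #E(𝔽_q)` at the primes `q ∣ m_F`; `F` is given by its group of characters
`F.X` and the set `F.T` of the primes `q ∣ m_F`. `θ F` is the Mazur-Tate element: an element of the
group ring of the Galois group `G` over the rational numbers with denominators prime to `p`, with the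
values `χ (θ F) = τ_m(χ) L_S(E, χ⁻¹, 1) / Ω` (`IsTheta`), where `S` consists of the bad primes and of
the primes dividing `m_F`. `I` is the augmentation ideal of the group ring.

The Mazur-Tate conjecture says that `θ F ∈ I ^ r`, `r` the rank of `E`, with a formula for the class in
`I ^ r / I ^ (r + 1)`. Here the order of vanishing is bounded from below by the number of the characters
`χ` of `F` with `L(E, χ⁻¹, 1) = 0`.

Theorem. Let `L(E, 1) = 0` and `F` of exponent `p`. If less than `2 ^ (-k) |F.X|`, or, for `k < p`, less
than `(1 - k / p) |F.X|` of the values `L(E, χ⁻¹, 1)`, `χ ∈ F.X`, are not zero, then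
`θ F' ∈ I ^ (k + 1)` for `F' = F` and for all subfields `F'` of `F`. For instance, `θ F ∈ I ^ 2` if more than
`|F.X| / p` of the values vanish. In other words, if `θ F'` vanishes to order at most `k < p` for one
field `F'` of exponent `p` then in every field `F ⊇ F'` of exponent `p` at least `(1 - k / p) |F.X|` of
the values are not zero.

Proof. The differences of the function `χ ↦ χ(z)` on `F.X`, `z` in the group ring, are divisible by `π`,
because `χ ψ (σ) - χ (σ) = χ (σ) (ψ (σ) - 1)`; so modulo `π ^ (k + 1)` this function is polynomial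
of degree at most `k` in the sense of iterated differences. A polynomial map of degree `k` between
abelian groups which is not zero is nonzero on a proportion at least `2 ^ (-k)`, and at least
`1 - k / p` if `k < p` and if the target has no torsion prime to `p` (a lemma of Schwartz and Zippel without
a field: for a direction `h` let `g` be the last nonzero iterated difference; on every progression with
difference `h` on which `g ≠ 0` at most `deg` of `p` consecutive values vanish, by the determinant of
Vandermonde; then use induction for `g`). The values of the elements of different fields at a character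
differ by the Euler factors `a_q - q χ(q) - χ(q)⁻¹ ≡ - #E(𝔽_q) mod π`, which are units. If `F` has the
exponent `p` and `z ∈ I`, then `z ∈ I ^ (k + 1)` if (and only if) all the values are divisible by
`π ^ (k + 1)`.
-/

set_option autoImplicit false

namespace Pool.Agent.Results.MP_5deabe_nt.ZerosAndOrder

open Pool.Agent.X252.MT Pool.Agent.K9h35.MZ

/-- the number of the characters `χ` of `F` with `L(E, χ⁻¹, 1) ≠ 0` (the Euler factors at the primes of
bad reduction are omitted from `L`) -/
noncomputable def nonvanishing {W : WeierstrassCurve ℤ} {p : ℕ} (F : Fld W p) : ℕ :=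
  Nat.card {χ : F.X // ∃ (T : Finset ℕ) (L : ℂ → ℂ), (∀ q, q ∈ T ↔ (χ : Fam) q ≠ 1) ∧
    IsL W T (χ⁻¹ : F.X) L ∧ L 1 ≠ 0}

/-- at least `2 ^ (-k) |F.X|` of the values `L(E, χ⁻¹, 1)`, `χ ∈ F.X`, are not zero -/
def Many {W : WeierstrassCurve ℤ} {p : ℕ} (F : Fld W p) (k : ℕ) : Prop :=
  Nat.card F.X ≤ 2 ^ k * nonvanishing F

/-- at least `(1 - k / p) |F.X|` of the values `L(E, χ⁻¹, 1)`, `χ ∈ F.X`, are not zero -/
def Most {W : WeierstrassCurve ℤ} {p : ℕ} (F : Fld W p) (k : ℕ) : Prop :=
  (p - k) * Nat.card F.X ≤ p * nonvanishing F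

/-- the exponent of the group `F.X` (of the Galois group of `F`) divides `e` -/
def HasExp {W : WeierstrassCurve ℤ} {p : ℕ} (F : Fld W p) (e : ℕ) : Prop :=
  ∀ c ∈ F.X, c ^ e = 1

/-- **Many zeros.** If `L(E, 1) = 0`, `F` has the exponent `p`, and if `Many F k` fails, or `k < p` and
`Most F k` fails, then `θ F' ∈ I ^ (k + 1)` for all subfields `F'` of `F`. -/
theorem result (W : WeierstrassCurve ℤ) (p : ℕ) (hp : p.Prime) (Ω : ℂ) (hΩ : Ω ≠ 0)
    (θ : (F : Fld W p) → MonoidAlgebra (Zp p hp) (Du F.X)) (hθ : ∀ F, IsTheta F Ω (θ F))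
    (L : ℂ → ℂ) (hL : IsL W ∅ 1 L) (h0 : L 1 = 0) (k : ℕ) (F : Fld W p) (hF : HasExp F p)
    (h : ¬ Many F k ∨ (k < p ∧ ¬ Most F k)) (F' : Fld W p) (hle : F'.X ≤ F.X) :
    InPow (k + 1) (θ F') := by
  have h1 : InPow (k + 1) (θ F) := many_zeros hp hΩ hθ L hL h0 k F hF
    (h.imp not_le.1 fun h => ⟨h.1, not_le.1 h.2⟩)
  exact ((reduction hp hΩ hθ).1 (k + 1)).down F F' hle h1

end Pool.Agent.Results.MP_5deabe_nt.ZerosAndOrder
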